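import Mathlib
import Pool.Agent.MP_0e4269_lc.z.Fin

universe u v w

namespace Pool.Agent.Results.MP_0e4269_lc.AllPairs

open Pool.Agent.MP_0e4269_lc

/-- Two levels of Hensel minimality are equivalent exactly when they are equal or both are at
least one. -/
theorem result (ell ell' : ℕ∞) :
    (∀ (L : FirstOrder.Language.{u, v}) (add mul : L.Functions 2) (o : L.Relations 1)
      (T : L.Theory),
      HMinimal.{u, v, w} L add mul o T ell ↔ HMinimal.{u, v, w} L add mul o T ell') ↔
    (ell = ell' ∨ (1 ≤ ell ∧ 1 ≤ ell')) :=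
  Z.levels ell ell'

end Pool.Agent.Results.MP_0e4269_lc.AllPairs
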